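import Mathlib

set_option autoImplicit false

namespace Pool.Agent.Results.MP_b7f2db_gt.Counter

open Set Filter Topology

def SHD (Y : Type) [TopologicalSpace Y] : Prop :=
  ∀ U : ℕ → Set Y, (∀ n, IsOpen (U n) ∧ (U n).Nonempty) → ∃ x : ℕ → Y, (∀ n, x n ∈ U n) ∧
    ¬ ∃ (φ : ℕ → ℕ) (p : Y), StrictMono φ ∧ Tendsto (x ∘ φ) atTop (𝓝 p)

inductive G : Type
  | base : G
  | mk : Set ℕ → (ℕ → ℕ) → (ℕ → ℕ → G) → G

def pr : G → ℕ → Set G
  | .base, _ => ∅
  | .mk _ k f, n => f n '' Iio (k n)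

lemma pr_fin (g : G) (n : ℕ) : (pr g n).Finite := by
  cases g with
  | base => exact finite_empty
  | mk r k f => exact (finite_Iio _).image _

lemma unc {α : Type} (f : Set ℕ → α) (hf : Function.Injective f) {C : Set α} (hC : C.Countable) :
    ∃ r, f r ∉ C := by
  by_contra! h
  have := (hC.preimage_of_injOn hf.injOn)
  rw [show f ⁻¹' C = univ from eq_univ_of_forall h, countable_univ_iff] at this
  obtain ⟨g, hg⟩ := exists_surjective_nat (Set ℕ)
  exact Function.cantor_surjective g hg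

lemma fresh (p : ℕ → Set G) (hp : ∀ n, (p n).Finite) {C : Set G} (hC : C.Countable) :
    ∃ g ∉ C, ∀ n, p n ⊆ pr g n := by
  have (n : ℕ) : ∃ (k : ℕ) (f : ℕ → G), p n ⊆ f '' Iio k := by
    refine ⟨(hp n).toFinset.toList.length, fun i => (hp n).toFinset.toList.getD i .base,
      fun x hx => ?_⟩
    obtain ⟨i, hi, rfl⟩ := List.getElem_of_mem (Finset.mem_toList.2 ((hp n).mem_toFinset.2 hx))
    exact ⟨i, hi, List.getD_eq_getElem _ _ hi⟩
  choose k f h using this
  obtain ⟨r, hr⟩ := unc (fun r => G.mk r k f) (fun a b e => by injection e) hC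
  exact ⟨_, hr, h⟩

def adj (n : ℕ) (a b : G) : Prop := a ∈ pr b n ∨ b ∈ pr a n

lemma cliq (n : ℕ) (a : Set G) (h : a.Pairwise (adj n)) : a.Countable := by
  by_contra hc
  have hi : a.Infinite := fun hf => hc hf.countable
  let e : ℕ → G := fun i => hi.natEmbedding a i
  have he : Function.Injective e := Subtype.val_injective.comp (hi.natEmbedding a).injective
  refine hc (((countable_range e).union (countable_iUnion fun i =>
    (pr_fin (e i) n).countable)).mono fun d hd => ?_)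
  by_contra hn
  simp only [mem_union, mem_range, mem_iUnion, not_or, not_exists] at hn
  refine infinite_range_of_injective he ((pr_fin d n).subset ?_)
  rintro _ ⟨i, rfl⟩
  exact (h (hi.natEmbedding a i).2 hd (hn.1 i)).resolve_right (hn.2 i)

lemma big (a : ℕ → Set G) (ha : ∀ n, (a n).Finite) {C : Set G} (hC : C.Countable) :
    ∃ s : Set G, ¬ s.Countable ∧ Disjoint s C ∧ (∀ g ∈ s, ∀ᶠ m in atTop, ∀ d ∈ a m, adj m g d) ∧
      s.Pairwise fun g d => ∀ᶠ m in atTop, adj m g d := by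
  obtain ⟨s, hs⟩ := zorn_subset {s : Set G | Disjoint s C ∧
      (∀ g ∈ s, ∀ᶠ m in atTop, ∀ d ∈ a m, adj m g d) ∧
      s.Pairwise fun g d => ∀ᶠ m in atTop, adj m g d} fun c hc hch =>
    ⟨⋃₀ c, ⟨disjoint_sUnion_left.2 fun s hs => (hc hs).1, fun g ⟨s, hs, hg⟩ => (hc hs).2.1 g hg,
      hch.pairwise_sUnion.2 fun s hs => (hc hs).2.2⟩, fun s hs => subset_sUnion_of_mem hs⟩
  refine ⟨s, fun h => ?_, hs.1⟩
  obtain ⟨e, he⟩ := (@countable_iff_exists_subset_range _ ⟨G.base⟩ _).1 h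
  obtain ⟨g, hg, hp⟩ := fresh (fun n => a n ∪ e '' Iio n)
    (fun n => (ha n).union ((finite_Iio n).image e)) (hC.union h)
  have k (d) (hd : d ∈ s) : ∀ᶠ m in atTop, d ∈ pr g m := by
    obtain ⟨i, rfl⟩ := he hd
    exact (eventually_gt_atTop i).mono fun m hm => hp m (Or.inr ⟨i, hm, rfl⟩)
  refine hg (Or.inr (hs.2 (y := insert g s) ⟨?_, ?_, ?_⟩ (subset_insert g s) (mem_insert g s)))
  · exact disjoint_insert_left.2 ⟨fun h => hg (Or.inl h), hs.1.1⟩
  · rintro x (rfl | hx)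
    · exact .of_forall fun m d hd => Or.inr (hp m (Or.inl hd))
    · exact hs.1.2.1 x hx
  · exact hs.1.2.2.insert fun d hd _ =>
      ⟨(k d hd).mono fun m => Or.inr, (k d hd).mono fun m => Or.inl⟩

abbrev L := ℕ ⊕ (ℕ × Set ℕ × Set ℕ) ⊕ G

def sp (x : L → Bool) : Set G := {g | x (.inr (.inr g)) = true}

def V (n : ℕ) : Set (L → Bool) := {x | (∀ m, x (.inl m) = true ↔ m = n) ∧
  (∀ q, x (.inr (.inl q)) = true → q.1 = n) ∧ (sp x).Pairwise (adj n)}

lemma cl2 (P : Bool → Bool → Prop) (i j : L) : IsClosed {x : L → Bool | P (x i) (x j)} :=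
  (isClosed_discrete {p : Bool × Bool | P p.1 p.2}).preimage
    (f := fun x : L → Bool => (x i, x j)) (by fun_prop)

lemma V_closed (n : ℕ) : IsClosed (V n) := by
  have : V n = (⋂ m, {x | x (.inl m) = true ↔ m = n}) ∩ ((⋂ q : ℕ × Set ℕ × Set ℕ,
      {x | x (.inr (.inl q)) = true → q.1 = n}) ∩ ⋂ a, ⋂ b, {x | x (.inr (.inr a)) = true → x (.inr (.inr b)) = true →
      a ≠ b → adj n a b}) := by
    ext x
    simp only [V, Set.Pairwise, sp, mem_setOf_eq, mem_inter_iff, mem_iInter]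
    exact and_congr_right' (and_congr_right' ⟨fun h a b c d => h c d, fun h a c b d => h a b c d⟩)
  rw [this]
  exact (isClosed_iInter fun m => cl2 (fun a _ => a = true ↔ m = n) _ (.inl 0)).inter
    ((isClosed_iInter fun q : ℕ × Set ℕ × Set ℕ => cl2 (fun a _ => a = true → q.1 = n) _ (.inl 0)).inter
    (isClosed_iInter fun a => isClosed_iInter fun b =>
      cl2 (fun c d => c = true → d = true → a ≠ b → adj n a b) _ _))

def X : Set (L → Bool) :=
  {x | x ∈ closure (⋃ n, V n) ∧ ((∃ m, x (.inl m) = true) ∨ ¬ (sp x).Countable)}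

lemma VX {n : ℕ} {x : L → Bool} (h : x ∈ V n) : x ∈ X :=
  ⟨subset_closure (mem_iUnion.2 ⟨n, h⟩), Or.inl ⟨n, (h.1 n).2 rfl⟩⟩

lemma box {S U : Set (L → Bool)} {x : S} (hU : Subtype.val ⁻¹' U ∈ 𝓝 x) :
    ∃ F : Set L, F.Finite ∧ ∀ y ∈ S, (∀ i ∈ F, y i = x.1 i) → y ∈ U := by
  rw [nhds_subtype, mem_comap] at hU
  obtain ⟨W, hW, h⟩ := hU
  rw [nhds_pi, Filter.mem_pi] at hW
  obtain ⟨F, hF, t, ht, h2⟩ := hW
  exact ⟨F, hF, fun y hy e => h (a := ⟨y, hy⟩) (h2 fun i hi =>
    show y i ∈ t i by rw [e i hi]; exact mem_of_mem_nhds (ht i))⟩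

lemma box' {S : Set (L → Bool)} {U : Set S} {x : S} (hU : U ∈ 𝓝 x) :
    ∃ F : Set L, F.Finite ∧ ∀ y : S, (∀ i ∈ F, y.1 i = x.1 i) → y ∈ U := by
  obtain ⟨F, hF, h⟩ := box (U := Subtype.val '' U) (x := x)
    (by rwa [preimage_image_eq _ Subtype.val_injective])
  exact ⟨F, hF, fun y e => Subtype.val_injective.mem_set_image.1 (h y y.2 e)⟩

lemma near {A : Set (L → Bool)} {z : L → Bool} (h : z ∈ closure A) {F : Set L} (hF : F.Finite) :
    ∃ y ∈ A, ∀ i ∈ F, y i = z i := by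
  obtain ⟨y, h1, h2⟩ := mem_closure_iff_nhds.1 h (F.pi fun i => {z i})
    (set_pi_mem_nhds hF fun i _ => (isOpen_discrete _).mem_nhds rfl)
  exact ⟨y, h2, h1⟩

lemma XV {n : ℕ} {x : L → Bool} (h : x ∈ X) (hn : x (.inl n) = true) : x ∈ V n := by
  have ho : IsOpen {y : L → Bool | y (.inl n) = true} :=
    (isOpen_discrete {true}).preimage (f := fun y : L → Bool => y (.inl n)) (by fun_prop)
  refine closure_minimal ?_ (V_closed n) (ho.inter_closure ⟨hn, h.1⟩)
  rintro y ⟨h1, h2⟩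
  obtain ⟨m, hm⟩ := mem_iUnion.1 h2
  rwa [(hm.1 n).1 h1]

lemma ev {S : Set (L → Bool)} {x : ℕ → S} {z : S} (h : Tendsto x atTop (𝓝 z)) (i : L) :
    ∀ᶠ n in atTop, (x n).1 i = z.1 i := by
  have := ((continuous_apply i).comp continuous_subtype_val).continuousAt.tendsto.comp h
  rwa [nhds_discrete, tendsto_pure] at this

open Classical in
lemma shd : SHD X := by
  intro U hU
  have (k : ℕ) : ∃ n, ∃ w ∈ V n, ∃ F : Set L, F.Finite ∧
      ∀ y : X, (∀ i ∈ F, y.1 i = w i) → y ∈ U k := by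
    obtain ⟨z, hz⟩ := (hU k).2
    obtain ⟨F, hF, h⟩ := box' ((hU k).1.mem_nhds hz)
    obtain ⟨y, hy, e⟩ := near z.2.1 hF
    obtain ⟨n, hn⟩ := mem_iUnion.1 hy
    exact ⟨n, y, hn, F, hF, fun u hu => h u fun i hi => (hu i hi).trans (e i hi)⟩
  choose n w hw F hF h using this
  let x (k : ℕ) : L → Bool := fun i => match i with
    | .inr (.inl q) => if .inr (.inl q) ∈ F k then w k (.inr (.inl q)) else
        decide (q.1 = n k ∧ k ∈ q.2.1)
    | i => w k i
  have hx (k : ℕ) : x k ∈ V (n k) := by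
    refine ⟨(hw k).1, fun q hq => ?_, (hw k).2.2⟩
    simp only [x] at hq
    split_ifs at hq
    · exact (hw k).2.1 q hq
    · exact (of_decide_eq_true hq).1
  refine ⟨fun k => ⟨x k, VX (hx k)⟩, fun k => h k _ ?_, ?_⟩
  · rintro (i | q | g) hi
    · rfl
    · exact if_pos hi
    · rfl
  rintro ⟨φ, z, hφ, ht⟩
  rcases z.2.2 with ⟨m, hm⟩ | hc
  · let A := φ '' {j | Even j}
    obtain ⟨r, hr⟩ := unc (fun r => (.inr (.inl (m, A, r)) : L)) (fun a b e => by simpa using e)
      (countable_iUnion fun k => (hF k).countable)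
    obtain ⟨N, hN⟩ := eventually_atTop.1 ((ev ht (.inl m)).and (ev ht (.inr (.inl (m, A, r)))))
    have (j : ℕ) (hj : N ≤ j) : z.1 (.inr (.inl (m, A, r))) = decide (Even j) := by
      rw [← (hN j hj).2]
      have e := ((hx (φ j)).1 m).1 ((hN j hj).1.trans hm)
      have : (.inr (.inl (m, A, r)) : L) ∉ F (φ j) := fun h => hr (mem_iUnion.2 ⟨_, h⟩)
      simp only [x, Function.comp, if_neg this]
      simp [e, A, hφ.injective.eq_iff]
    have := (this N le_rfl).symm.trans (this (N + 1) (by omega))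
    simp [Nat.even_add_one, ← Nat.not_even_iff_odd] at this
  · refine hc ((countable_iUnion fun k => cliq _ _ (hx k).2.2).mono fun g hg => ?_)
    obtain ⟨j, hj⟩ := (ev ht (.inr (.inr g))).exists
    exact mem_iUnion.2 ⟨φ j, hj.trans hg⟩

open Classical in
lemma link (x : ℕ → X) (hx : ∀ n, (x n).1 ∈ V n) (φ : ℕ → ℕ) (hφ : StrictMono φ) (t : G → Bool)
    (ht : ∀ g, ∀ᶠ j in atTop, (x (φ j)).1 (.inr (.inr g)) = t g) (P Q : Set X) (hP : IsOpen P)
    (hQ : IsOpen Q) (h1 : ∃ᶠ j in atTop, x (φ j) ∈ P) (h2 : ∃ᶠ j in atTop, x (φ j) ∈ Q) :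
    ∃ z, z ∈ closure P ∧ z ∈ closure Q := by
  have (m : ℕ) : ∃ F : Set L, F.Finite ∧ ∀ y : X, (∀ i ∈ F, y.1 i = (x m).1 i) →
      (x m ∈ P → y ∈ P) ∧ (x m ∈ Q → y ∈ Q) := by
    refine box' (U := {y | (x m ∈ P → y ∈ P) ∧ (x m ∈ Q → y ∈ Q)}) (inter_mem ?_ ?_)
    · by_cases h : x m ∈ P
      · exact mem_of_superset (hP.mem_nhds h) fun y hy _ => hy
      · exact univ_mem' fun y hy => absurd hy h
    · by_cases h : x m ∈ Q
      · exact mem_of_superset (hQ.mem_nhds h) fun y hy _ => hy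
      · exact univ_mem' fun y hy => absurd hy h
  choose F hF h using this
  obtain ⟨e, he⟩ := (@countable_iff_exists_subset_range _ ⟨G.base⟩ _).1
    (countable_iUnion fun k => cliq _ _ (hx k).2.2)
  let E (m : ℕ) : Set G := (fun g => (.inr (.inr g) : L)) ⁻¹' F m
  have hE (m : ℕ) : (E m).Finite := (hF m).preimage fun a _ b _ e => by simpa using e
  let a (m : ℕ) : Set G := sp (x m) ∩ (E m ∪ e '' Iio m)
  obtain ⟨s, s1, s2, s3, s4⟩ := big a (fun m => ((hE m).union ((finite_Iio m).image e)).inter_of_right _)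
    (countable_iUnion fun m => (hE m).countable)
  let z : L → Bool := fun i => match i with
    | .inr (.inr g) => decide (t g = true ∨ g ∈ s)
    | _ => false
  have key (B : Set L) (hB : B.Finite) : ∀ᶠ j in atTop, ∃ y ∈ V (φ j), (∀ i ∈ B, y i = z i) ∧
      ∀ i ∈ F (φ j), y i = (x (φ j)).1 i := by
    let c : Set G := s ∩ (fun g => (.inr (.inr g) : L)) ⁻¹' B
    have hc : c.Finite := (hB.preimage fun a _ b _ e => by simpa using e).inter_of_right _
    let y (m : ℕ) : L → Bool := fun i => match i with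
      | .inr (.inr g) => decide (g ∈ a m ∨ g ∈ c)
      | i => (x m).1 i
    have k1 : ∀ᶠ m in atTop, ∀ g ∈ c, ∀ d ∈ a m, adj m g d :=
      (eventually_all_finite hc).2 fun g hg => s3 g hg.1
    have k2 : ∀ᶠ m in atTop, ∀ g ∈ c, ∀ d ∈ c, g ≠ d → adj m g d :=
      (eventually_all_finite hc).2 fun g hg => (eventually_all_finite hc).2 fun d hd => by
        by_cases e : g = d
        · exact .of_forall fun _ h => absurd e h
        · exact (s4 hg.1 hd.1 e).mono fun _ h _ => h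
    have k3 : ∀ᶠ j in atTop, ∀ i ∈ B, y (φ j) i = z i := by
      refine (eventually_all_finite hB).2 ?_
      rintro (i | q | g) hi
      · refine (hφ.tendsto_atTop.eventually (eventually_gt_atTop i)).mono fun j hj => ?_
        exact Bool.eq_false_iff.2 fun h => hj.ne (((hx _).1 i).1 h)
      · refine (hφ.tendsto_atTop.eventually (eventually_gt_atTop q.1)).mono fun j hj => ?_
        exact Bool.eq_false_iff.2 fun h => hj.ne ((hx _).2.1 q h)
      · have : ∀ᶠ m in atTop, g ∈ sp (x m) → g ∈ e '' Iio m := by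
          by_cases hg : g ∈ range e
          · obtain ⟨i, rfl⟩ := hg
            exact (eventually_gt_atTop i).mono fun m hm _ => ⟨i, hm, rfl⟩
          · exact .of_forall fun m hm => absurd (he (mem_iUnion.2 ⟨m, hm⟩)) hg
        filter_upwards [ht g, hφ.tendsto_atTop.eventually this] with j j1 j2
        refine decide_eq_decide.2 (or_congr ⟨fun h => j1 ▸ h.1, fun h => ?_⟩
          ⟨fun h => h.1, fun h => ⟨h, hi⟩⟩)
        exact ⟨j1.trans h, Or.inr (j2 (j1.trans h))⟩
    filter_upwards [hφ.tendsto_atTop.eventually k1, hφ.tendsto_atTop.eventually k2, k3]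
      with j j1 j2 j3
    refine ⟨y (φ j), ⟨(hx _).1, (hx _).2.1, fun g hg d hd e => ?_⟩, j3, ?_⟩
    · rcases of_decide_eq_true hg with hg | hg <;> rcases of_decide_eq_true hd with hd | hd
      exacts [(hx _).2.2 hg.1 hd.1 e, (j1 d hd g hg).symm, j1 g hg d hd, j2 g hg d hd e]
    · rintro (i | q | g) hi
      · rfl
      · rfl
      · have : g ∉ s := fun h => disjoint_left.1 s2 h (mem_iUnion.2 ⟨φ j, hi⟩)
        refine Bool.eq_iff_iff.2 (decide_eq_true_iff.trans ⟨?_, fun h => Or.inl ⟨h, Or.inl hi⟩⟩)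
        rintro (h | h)
        exacts [h.1, absurd h.1 this]
  have hz : z ∈ X := by
    refine ⟨mem_closure_iff_nhds.2 fun W hW => ?_, Or.inr fun h => s1 (h.mono fun g hg =>
      decide_eq_true (Or.inr hg))⟩
    obtain ⟨B, hB, k⟩ := box (S := univ) (U := W) (x := ⟨z, trivial⟩)
      (continuous_subtype_val.continuousAt.preimage_mem_nhds hW)
    obtain ⟨j, y, y1, y2, -⟩ := (key B hB).exists
    exact ⟨y, k y trivial y2, mem_iUnion.2 ⟨_, y1⟩⟩
  refine ⟨⟨z, hz⟩, mem_closure_iff_nhds.2 fun W hW => ?_, mem_closure_iff_nhds.2 fun W hW => ?_⟩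
  · obtain ⟨B, hB, k⟩ := box' hW
    obtain ⟨j, j1, y, y1, y2, y3⟩ := (h1.and_eventually (key B hB)).exists
    exact ⟨⟨y, VX y1⟩, k _ y2, (h _ _ y3).1 j1⟩
  · obtain ⟨B, hB, k⟩ := box' hW
    obtain ⟨j, j1, y, y1, y2, y3⟩ := (h2.and_eventually (key B hB)).exists
    exact ⟨⟨y, VX y1⟩, k _ y2, (h _ _ y3).2 j1⟩

open Classical in
lemma sub (x : ℕ → X) (hx : ∀ n, (x n).1 ∈ V n) : ∃ (φ : ℕ → ℕ) (t : G → Bool), StrictMono φ ∧
    ∀ g, ∀ᶠ j in atTop, (x (φ j)).1 (.inr (.inr g)) = t g := by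
  obtain ⟨e, he⟩ := (@countable_iff_exists_subset_range _ ⟨G.base⟩ _).1
    (countable_iUnion fun k => cliq _ _ (hx k).2.2)
  obtain ⟨a, φ, hφ, ht⟩ := CompactSpace.tendsto_subseq fun n i => (x n).1 (.inr (.inr (e i)))
  refine ⟨φ, fun g => if h : g ∈ range e then a h.choose else false, hφ, fun g => ?_⟩
  dsimp only
  split_ifs with h
  · have := tendsto_pi_nhds.1 ht h.choose
    rw [nhds_discrete, tendsto_pure] at this
    simpa [h.choose_spec] using this
  · exact .of_forall fun j => Bool.eq_false_iff.2 fun k => h (he (mem_iUnion.2 ⟨_, k⟩))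

def v (n : ℕ) : L → Bool := fun i => match i with
  | .inl m => decide (m = n)
  | _ => false

lemma v_mem (n : ℕ) : v n ∈ V n :=
  ⟨fun _ => decide_eq_true_iff, fun _ h => by simp [v] at h, fun _ h => by simp [v, sp] at h⟩

theorem result : ∃ (X : Type) (_ : TopologicalSpace X),
    T35Space X ∧ ¬ CompactSpace X ∧ SHD X ∧ ¬ SHD (StoneCech X) := by
  refine ⟨X, inferInstance, inferInstance, fun hc => ?_, shd, fun h => ?_⟩
  · obtain ⟨z, hz⟩ := exists_clusterPt_of_compactSpace (map (fun n => (⟨v n, VX (v_mem n)⟩ : X)) atTop)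
    have k (i : L) : ∃ᶠ n in atTop, v n i = z.1 i := by
      refine mapClusterPt_iff_frequently.1 hz {y | y.1 i = z.1 i} ?_
      exact ((isOpen_discrete {z.1 i}).preimage (f := fun y : X => y.1 i)
        ((continuous_apply i).comp continuous_subtype_val)).mem_nhds rfl
    rcases z.2.2 with ⟨m, hm⟩ | hc
    · obtain ⟨n, h1, h2⟩ := ((k (.inl m)).and_eventually (eventually_gt_atTop m)).exists
      exact h2.ne (of_decide_eq_true (h1.trans hm))
    · refine hc (countable_empty.mono fun g hg => ?_)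
      obtain ⟨n, h1⟩ := (k (.inr (.inr g))).exists
      exact Bool.false_ne_true (h1.trans hg)
  have hc (n : ℕ) : Continuous fun y : X => y.1 (.inl n) :=
    (continuous_apply _).comp continuous_subtype_val
  let O (n : ℕ) : Set (StoneCech X) := stoneCechExtend (hc n) ⁻¹' {true}
  have hO (n : ℕ) : IsOpen (O n) := (isOpen_discrete _).preimage (continuous_stoneCechExtend _)
  have hu (n : ℕ) (y : X) : stoneCechUnit y ∈ O n ↔ y.1 (.inl n) = true := by
    simp [O, stoneCechExtend_stoneCechUnit]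
  obtain ⟨y, hy, hn⟩ := h O fun n => ⟨hO n, _, (hu n ⟨v n, VX (v_mem n)⟩).2 (by simp [v])⟩
  have (n : ℕ) : ∃ x : X, x.1 ∈ V n ∧ stoneCechUnit x = y n := by
    have hK : IsCompact (Subtype.val ⁻¹' V n : Set X) :=
      IsInducing.subtypeVal.isCompact_preimage' (V_closed n).isCompact
        (by rw [Subtype.range_coe]; exact fun _ => VX)
    refine closure_minimal ?_ (hK.image continuous_stoneCechUnit).isClosed
      ((hO n).inter_closure ⟨hy n, denseRange_stoneCechUnit (y n)⟩)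
    rintro _ ⟨h1, u, rfl⟩
    exact ⟨u, XV u.2 ((hu n u).1 h1), rfl⟩
  choose x hx e using this
  obtain ⟨φ, t, hφ, ht⟩ := sub x hx
  obtain ⟨p, hp⟩ := exists_clusterPt_of_compactSpace (map (y ∘ φ) atTop)
  refine hn ⟨φ, p, hφ, isCompact_univ.tendsto_nhds_of_unique_mapClusterPt
    (.of_forall fun _ => trivial) fun q _ hq => by_contra fun hne => ?_⟩
  obtain ⟨A, hA, B, hB, hd⟩ := exists_nhds_disjoint_closure hne
  obtain ⟨z, z1, z2⟩ := link x hx φ hφ t ht (stoneCechUnit ⁻¹' interior A)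
    (stoneCechUnit ⁻¹' interior B) (isOpen_interior.preimage continuous_stoneCechUnit)
    (isOpen_interior.preimage continuous_stoneCechUnit)
    ((mapClusterPt_iff_frequently.1 hq _ (interior_mem_nhds.2 hA)).mono fun j h => by
      simpa [e] using h)
    ((mapClusterPt_iff_frequently.1 hp _ (interior_mem_nhds.2 hB)).mono fun j h => by
      simpa [e] using h)
  exact disjoint_left.1 hd
    (closure_mono interior_subset (continuous_stoneCechUnit.closure_preimage_subset _ z1))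
    (closure_mono interior_subset (continuous_stoneCechUnit.closure_preimage_subset _ z2))

end Pool.Agent.Results.MP_b7f2db_gt.Counter
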